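import Pool.Agent.H334R5.Lin.Final

/-!
# Sets defined by linear equations over a finite field, and the question P = NP

All classes are the usual ones, with polynomial time as Mathlib's `Turing.TM2ComputableInPolyTime`
(through `Pool.Agent.NPC.PolyTime`): `InP`, `InNP` are the classes `P` and `NP` of languages over
the alphabet `Bool`. The notions `LinearlyDefined` and `BoolConjReduces` are in
`Pool.Agent.H334R5.Lin.Defs`.

Examples of sets defined by linear equations modulo 2 are the sets closed under the bitwise sum
`x ⊕ y ⊕ z` of strings of the same length (`Pool.Agent.H334R5.Lin.xorClosed_linearlyDefined`).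
-/

set_option autoImplicit false

namespace Pool.Agent.Results.MP_8a52c3_lc.LinearHardSets

open Pool.Agent.NPC Pool.Agent.H334R5.Lin

/-- Let `p` be a prime. `P = NP` iff there is a set `S` defined by an arbitrary system of linear
equations modulo `p` in polynomial-time computable coordinates, such that every set in `NP` reduces
to `S` by a Boolean combination of boundedly many conjunctive queries (the bound may depend on the
set in `NP`). There is no complexity bound on `S`. -/
theorem result (p : ℕ) (hp : p.Prime) :
    (∃ S : Set (List Bool), LinearlyDefined p S ∧
      ∀ A : Set (List Bool), InNP A → ∃ k : ℕ, BoolConjReduces k A S) ↔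
    ∀ A : Set (List Bool), InNP A → InP A :=
  linear_iff p hp

end Pool.Agent.Results.MP_8a52c3_lc.LinearHardSets
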