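import Pool.Agent.H530R3.Thr.Final

/-!
# The exact density threshold for random oracles which separate `P` from `NP`

Let `p 0, p 1, ...` be arbitrary numbers in `[0, 1]` and let `A` be the random oracle with
densities `p`: independently for all strings, a string of length `n` belongs to `A` with
probability `p n`.  (Bennett and Gill, 1981: if all `p n` are `1 / 2` then almost surely
`P^A ≠ NP^A`.)

* If the sum of all `2 ^ n * min (p n) (1 - p n)` diverges, then almost surely `NP^A` is not
  contained in `coAM^A`, hence not in `coNP^A`, `BPP^A`, `P^A`.
* If the sum converges, then almost surely `A` differs only in finitely many strings from the fixed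
  set `major p` (all the strings whose length `n` satisfies `p n > 1 / 2`), so that `P^A` and `NP^A`
  are `P` and `NP` relative to this set, which is a tally set up to padding.
* Hence `P = NP` if and only if for at least one sequence `p` of numbers in `[0, 1 / 2]` the
  probability of `P^A = NP^A` is positive.

The proof: blocks of strings of length `n` are chosen such that the expected number `μ n` of full
blocks is at most `1 / 4` and the sum of the `μ n` diverges.  Finite sets of lengths with
`1 / 4 ≤ ∑ μ n ≤ 1 / 2` are considered.  An Arthur-Merlin protocol for `there is no full block of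
length n` has, on an oracle without full blocks, only few blocks which matter; making another
block full produces an error, and all these errors (for different lengths) are disjoint events, so
that with probability at least `1 / 18`, conditionally on all strings of other lengths, some error
occurs.  The error events for different lengths may be strongly correlated, which is why the lengths
are considered together.
-/

set_option autoImplicit false

namespace Pool.Agent.Results.MP_8a52c3_lc.RandomOracleThreshold

open Pool.Agent.NPC Pool.Agent.H628R3.RO Pool.Agent.H530R3.Thr
open Pool.Agent.H583R2.S2 (IsP)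
open MeasureTheory

/-- The exact threshold for random oracles which separate `P` from `NP`. -/
theorem result :
    (∀ p : ℕ → unitInterval, (¬ Summable fun n => (2 : ℝ) ^ n * min (p n : ℝ) (1 - p n)) →
      ∀ᵐ A ∂(biasedOracle p), ∃ L : Set (List Bool), IsNP A L ∧
        ¬ IsAM A Lᶜ ∧ ¬ IsNP A Lᶜ ∧ ¬ IsBPP A L ∧ ¬ IsP A L) ∧
    (∀ p : ℕ → unitInterval, (Summable fun n => (2 : ℝ) ^ n * min (p n : ℝ) (1 - p n)) →
      ∀ᵐ A ∂(biasedOracle p), {x : List Bool | A x ≠ major p x}.Finite ∧
        ∀ L : Set (List Bool), (IsP A L ↔ IsP (major p) L) ∧ (IsNP A L ↔ IsNP (major p) L)) ∧
    (PeqNP ↔ ∃ p : ℕ → unitInterval, (∀ n, (p n : ℝ) ≤ 1 / 2) ∧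
      0 < biasedOracle p {A | ∀ L : Set (List Bool), IsNP A L ↔ IsP A L}) :=
  ⟨divergent, convergent, peqNP_iff'⟩

end Pool.Agent.Results.MP_8a52c3_lc.RandomOracleThreshold
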