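import Pool.Agent.H429R4.KS.Three
import Pool.Agent.H429R4.KS.Symm

/-!
# Circuits with few sign transforms cannot approximate 3-SAT, not even on average

Negating some letters of a formula does not change whether it is satisfiable. A sign change turns
the function computed at a gate of a circuit into one of its transforms, and it turns the wiring of
the gate (the bit that it reads, and the multiset of the labelled functions on the wires that enter
it) into a transform of the wiring. No symmetry of the circuit is assumed, and the gates may compute
arbitrary functions of unbounded fan-in with values in an arbitrary set. We show that a circuit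
whose wirings have less than `|Γ| ^ (1 / K) / K` different transforms, under some group `Γ` of sign
changes, cannot tell satisfiable 3-CNF formulas from formulas that are not even
`(7/8 + ε)`-satisfiable, not even on average over a distribution that does not depend on the
circuit. The formulas express systems of linear equations with three letters; the systems are
random, and the right-hand sides are random sign changes of zero and of a fixed far vector.

If the circuit is symmetric under `Γ` then the number of the transforms of the wirings is at most
the number of gates (`Pool.Agent.H429R4.KS.numWirings_le_size`).
-/

namespace Pool.Agent.Results.MP_8a52c3_lc.SignTransforms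

open Finset
open Pool.Agent.H525R2.Sym (Clause Satisfiable numTrue bits)
open Pool.Agent.H429R4.Sem (Circuit)
open Pool.Agent.H429R4.KS

open Classical in
/-- **Circuits with few sign transforms cannot approximate 3-SAT, not even on average.**
For all `ε, δ > 0` there is a constant `K` such that for every finite set `V` of letters and every
group `Γ` of sign changes with more than `K ^ K` elements there are two samples `(φ ω)`, `(ψ ω)` of
3-CNF formulas, indexed by the same nonempty finite set: the formulas `φ ω` are satisfiable, no
assignment makes more than the fraction `7/8 + ε` of the clauses of `ψ ω` true, and `φ ω` and `ψ ω`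
have the same positive number of clauses, at most `K |V|`. For every circuit such that the number
`T` of the different transforms of the wirings of its gates under `Γ` satisfies `(K T) ^ K < |Γ|`,
the fractions of the formulas accepted (in any sense: output in a set `acc`) in the two samples
differ by at most `δ`. -/
theorem result {ε δ : ℝ} (hε : 0 < ε) (hδ : 0 < δ) :
    ∃ K : ℕ, ∀ (V : Type) [Fintype V] [DecidableEq V] (Γ : AddSubgroup (V → ZMod 2)),
      K ^ K < Nat.card Γ →
      ∃ (Ω : Type) (_ : Fintype Ω) (_ : Nonempty Ω) (φ ψ : Ω → Finset (Clause V)),
        (∀ ω, IsKCNF 3 (φ ω) ∧ IsKCNF 3 (ψ ω) ∧ (φ ω).card = (ψ ω).card ∧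
          0 < (ψ ω).card ∧ (ψ ω).card ≤ K * Fintype.card V ∧ Satisfiable (φ ω) ∧
          ∀ α, (numTrue α (ψ ω) : ℝ) ≤ (7 / 8 + ε) * (ψ ω).card) ∧
        ∀ (D L : Type) (C : Circuit (Clause V) D L) (acc : Set D),
          (K * numWirings 3 C Γ) ^ K < Nat.card Γ →
          |((univ.filter fun ω => C.output (bits (φ ω)) ∈ acc).card : ℝ) -
            (univ.filter fun ω => C.output (bits (ψ ω)) ∈ acc).card| ≤ δ * Fintype.card Ω :=
  three_sat hε hδ

end Pool.Agent.Results.MP_8a52c3_lc.SignTransforms
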