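import Pool.Agent.H429R4.Sem.Exact

/-!
# Circuits for 3-SAT contain many gates whose functions are far from sign symmetric

The output of a circuit for 3-SAT is invariant under all `2 ^ n` sign changes (negations of
letters). Here it is shown that the functions computed inside such a circuit cannot all be nearly
invariant. In a circuit of fan-in at most `w` over any basis, with values in any set, that separates
the satisfiable 3-CNF formulas with `n` letters from those that are not `(7/8 + ε)`-satisfiable, let
`t` be the number of the gates whose functions have more than `m` transforms under the sign changes.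
Then `n ≤ t (3 + w log m) + K log (8 K |C| m ^ w)`. So a circuit of subexponential size has at least
`(1 - o(1)) n / (3 + w log m)` such gates as long as `m ^ w` is subexponential.
-/

namespace Pool.Agent.Results.MP_8a52c3_lc.WildGates

open Finset
open Pool.Agent.H525R2.Sym (Clause IsThreeCNF Satisfiable numTrue bits)
open Pool.Agent.H429R4.Sem

/-- **The number of wild gates in circuits for 3-SAT.**
For every `ε > 0` there is a constant `K` such that for every circuit `C` of fan-in at most `w` (the
gates compute arbitrary functions with values in an arbitrary set) which accepts all satisfiable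
3-CNF formulas over the letters `V` and rejects all nonempty 3-CNF formulas such that no assignment
makes more than the fraction `7/8 + ε` of the clauses true, for every group `Γ` of sign changes and
every `m > 0`, the number `t` of the gates whose functions have more than `m` transforms under `Γ`
satisfies `|Γ| ≤ (8 m ^ w) ^ t * (8 K |C| m ^ w) ^ K`. -/
theorem result {ε : ℝ} (hε : 0 < ε) :
    ∃ K : ℕ, ∀ (V D L : Type) [Fintype V] [DecidableEq V] (Γ : AddSubgroup (V → ZMod 2))
      (C : Circuit (Clause V) D L) (acc : Set D) (m w : ℕ), 0 < m →
      (∀ g, Multiset.card (C.wires g) ≤ w) →
      (∀ φ, IsThreeCNF φ → Satisfiable φ → C.output (bits φ) ∈ acc) →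
      (∀ φ, IsThreeCNF φ → 0 < φ.card → (∀ α, (numTrue α φ : ℝ) ≤ (7 / 8 + ε) * φ.card) →
        C.output (bits φ) ∉ acc) →
      Nat.card Γ ≤ (8 * m ^ w) ^ Nat.card {g : C.Gate // m < C.numTransforms Γ g} *
        (K * C.size * (8 * m ^ w)) ^ K :=
  wild_gates hε

end Pool.Agent.Results.MP_8a52c3_lc.WildGates
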